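import Pool.Agent.Helper14.FO.Defs

set_option autoImplicit false

namespace Pool.Agent.Helper14.FO

open Finset

theorem clt_bessel {J A : Type} [Fintype J] [DecidableEq A] (U : Finset A) (w : A → J → ℝ)
    (c : J → ℝ) (h1 : ∀ u ∈ U, ∑ j, w u j * w u j = 1)
    (h0 : ∀ u ∈ U, ∀ v ∈ U, u ≠ v → ∑ j, w u j * w v j = 0) :
    ∑ u ∈ U, (∑ j, c j * w u j) ^ 2 ≤ ∑ j, c j ^ 2 := by
  have key : 0 ≤ ∑ j, (c j - ∑ u ∈ U, (∑ k, c k * w u k) * w u j) ^ 2 :=
    Finset.sum_nonneg fun j _ => sq_nonneg _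
  have e1 : ∑ j, (c j - ∑ u ∈ U, (∑ k, c k * w u k) * w u j) ^ 2 =
      ∑ j, c j ^ 2 - 2 * ∑ j, c j * (∑ u ∈ U, (∑ k, c k * w u k) * w u j) +
        ∑ j, (∑ u ∈ U, (∑ k, c k * w u k) * w u j) ^ 2 := by
    rw [Finset.mul_sum, ← Finset.sum_sub_distrib, ← Finset.sum_add_distrib]
    exact Finset.sum_congr rfl fun j _ => by ring
  have e2 : ∑ j, c j * (∑ u ∈ U, (∑ k, c k * w u k) * w u j) =
      ∑ u ∈ U, (∑ j, c j * w u j) ^ 2 := by
    have : ∀ j, c j * (∑ u ∈ U, (∑ k, c k * w u k) * w u j) =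
        ∑ u ∈ U, (∑ k, c k * w u k) * (c j * w u j) := by
      intro j
      rw [Finset.mul_sum]
      exact Finset.sum_congr rfl fun u _ => by ring
    rw [Finset.sum_congr rfl fun j _ => this j, Finset.sum_comm]
    refine Finset.sum_congr rfl fun u _ => ?_
    rw [← Finset.mul_sum, sq]
  have e3 : ∑ j, (∑ u ∈ U, (∑ k, c k * w u k) * w u j) ^ 2 =
      ∑ u ∈ U, (∑ j, c j * w u j) ^ 2 := by
    have : ∀ j, (∑ u ∈ U, (∑ k, c k * w u k) * w u j) ^ 2 =
        ∑ u ∈ U, ∑ v ∈ U, ((∑ k, c k * w u k) * (∑ k, c k * w v k)) * (w u j * w v j) := by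
      intro j
      rw [sq, Finset.sum_mul_sum]
      exact Finset.sum_congr rfl fun u _ => Finset.sum_congr rfl fun v _ => by ring
    rw [Finset.sum_congr rfl fun j _ => this j, Finset.sum_comm]
    refine Finset.sum_congr rfl fun u hu => ?_
    rw [Finset.sum_comm]
    rw [Finset.sum_congr rfl fun v _ => (Finset.mul_sum _ _ _).symm]
    rw [Finset.sum_eq_single u]
    · rw [h1 u hu]; ring
    · intro v hv hne
      rw [h0 u hu v hv (Ne.symm hne), mul_zero]
    · intro h; exact absurd hu h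
  rw [e1, e2, e3] at key
  linarith

/-- product of two tensors -/
theorem clt_ten {n : ℕ} {K : Type} [Fintype K] [DecidableEq K] (a b : Fin n → K → ℝ) :
    ∑ s : Fin n → K, (∏ i, a i (s i)) * (∏ i, b i (s i)) = ∏ i, ∑ k, a i k * b i k := by
  rw [Finset.prod_univ_sum, Fintype.piFinset_univ]
  exact Finset.sum_congr rfl fun s _ => (Finset.prod_mul_distrib).symm

/-- the unit vectors of a strict vector colouring of a disjoint union -/
noncomputable def clt_uh {ι : Type} [DecidableEq ι] {W : ι → Type} (θ : ι → ℝ) (dd : ι → ℕ)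
    (vv : ∀ i, W i → Fin (dd i) → ℝ) (p : Σ i, W i) : Option (Σ i, Fin (dd i)) → ℝ
  | none => 1 / √(θ p.1)
  | some q => if h : q.1 = p.1 then vv p.1 p.2 (Fin.cast (congrArg dd h) q.2) / √(θ p.1) else 0

theorem clt_inner {ι : Type} [Fintype ι] [DecidableEq ι] {W : ι → Type} (θ : ι → ℝ) (dd : ι → ℕ)
    (vv : ∀ i, W i → Fin (dd i) → ℝ) (i : ι) (hi : 0 < θ i) (x y : W i) :
    ∑ k, clt_uh θ dd vv ⟨i, x⟩ k * clt_uh θ dd vv ⟨i, y⟩ k =
      (1 + ∑ k, vv i x k * vv i y k) / θ i := by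
  have hs : √(θ i) * √(θ i) = θ i := Real.mul_self_sqrt hi.le
  have hs0 : √(θ i) ≠ 0 := (Real.sqrt_pos.2 hi).ne'
  rw [Fintype.sum_option, Fintype.sum_sigma, Finset.sum_eq_single i]
  · have : ∀ k : Fin (dd i), clt_uh θ dd vv ⟨i, x⟩ (some ⟨i, k⟩) *
        clt_uh θ dd vv ⟨i, y⟩ (some ⟨i, k⟩) = vv i x k * vv i y k / θ i := by
      intro k
      simp only [clt_uh, dif_pos, Fin.cast_refl, id]
      rw [div_mul_div_comm, hs]
    rw [Finset.sum_congr rfl fun k _ => this k, ← Finset.sum_div]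
    simp only [clt_uh]
    rw [div_mul_div_comm, hs]
    ring
  · intro j _ hj
    refine Finset.sum_eq_zero fun k _ => ?_
    simp only [clt_uh]
    rw [dif_neg hj, zero_mul]
  · intro h
    exact absurd (Finset.mem_univ i) h

theorem st_CLT : ST_CLT := by
  intro V _ _ X θa hθa hLow ι _ _ W Y θ hθ hUp n U f T hT hadj hprod
  obtain ⟨d, g, h, hg, hh, horth, hlow⟩ := hLow
  choose dd vv hv1 hv2 using hUp
  classical
  let uh := clt_uh θ dd vv
  have huh1 : ∀ p, ∑ k, uh p k * uh p k = 1 := by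
    rintro ⟨i, x⟩
    show ∑ k, clt_uh θ dd vv ⟨i, x⟩ k * clt_uh θ dd vv ⟨i, x⟩ k = 1
    rw [clt_inner θ dd vv i (hθ i) x x]
    have := hv1 i x
    simp only [sq] at this
    rw [this]
    rw [div_eq_one_iff_eq (hθ i).ne']
    ring
  have huh0 : ∀ p q, (SigG Y).Adj p q → ∑ k, uh p k * uh q k = 0 := by
    rintro p q ⟨i, x, y, rfl, rfl, hxy⟩
    show ∑ k, clt_uh θ dd vv ⟨i, x⟩ k * clt_uh θ dd vv ⟨i, y⟩ k = 0
    rw [clt_inner θ dd vv i (hθ i) x y, hv2 i x y hxy]
    simp
  let w : (Fin n → V) → ((Fin n → Fin d) × (Fin n → Option (Σ i, Fin (dd i)))) → ℝ :=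
    fun u j => (∏ i, g (u i) (j.1 i)) * ∏ i, uh (f u i) (j.2 i)
  let c : ((Fin n → Fin d) × (Fin n → Option (Σ i, Fin (dd i)))) → ℝ :=
    fun j => (∏ i, h (j.1 i)) * ∏ i, (if j.2 i = none then 1 else 0)
  have hww : ∀ u v, ∑ j, w u j * w v j =
      (∏ i, ∑ k, g (u i) k * g (v i) k) * ∏ i, ∑ k, uh (f u i) k * uh (f v i) k := by
    intro u v
    rw [← clt_ten (fun i k => g (u i) k) (fun i k => g (v i) k),
      ← clt_ten (fun i k => uh (f u i) k) (fun i k => uh (f v i) k), Finset.sum_mul_sum,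
      Fintype.sum_prod_type]
    refine Finset.sum_congr rfl fun s _ => Finset.sum_congr rfl fun t _ => ?_
    simp only [w]
    ring
  have hcw : ∀ u, ∑ j, c j * w u j =
      (∏ i, ∑ k, h k * g (u i) k) * ∏ i, (1 / √(θ (f u i).1)) := by
    intro u
    have e : ∀ i, ∑ k, (if k = none then (1 : ℝ) else 0) * uh (f u i) k = 1 / √(θ (f u i).1) := by
      intro i
      rw [Finset.sum_eq_single none]
      · rw [if_pos rfl, one_mul]; rfl
      · intro b _ hb; rw [if_neg hb, zero_mul]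
      · intro h; exact absurd (Finset.mem_univ _) h
    rw [← Finset.prod_congr rfl fun i _ => e i,
      ← clt_ten (fun i k => h k) (fun i k => g (u i) k),
      ← clt_ten (fun i k => if k = none then (1 : ℝ) else 0) (fun i k => uh (f u i) k),
      Finset.sum_mul_sum, Fintype.sum_prod_type]
    refine Finset.sum_congr rfl fun s _ => Finset.sum_congr rfl fun t _ => ?_
    simp only [c, w]
    ring
  have hcc : ∑ j, c j ^ 2 = 1 := by
    have e0 : ∑ k : Option (Σ i, Fin (dd i)), (if k = none then (1 : ℝ) else 0) *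
        (if k = none then (1 : ℝ) else 0) = 1 := by
      rw [Finset.sum_eq_single none]
      · rw [if_pos rfl, one_mul]
      · intro b _ hb; rw [if_neg hb, zero_mul]
      · intro h; exact absurd (Finset.mem_univ _) h
    have e1 : ∑ k, h k * h k = 1 := by rw [← hh]; exact Finset.sum_congr rfl fun k _ => (sq _).symm
    have e2 := clt_ten (n := n) (fun _ k => h k) (fun _ k => h k)
    have e3 := clt_ten (n := n) (fun _ (k : Option (Σ i, Fin (dd i))) => if k = none then (1 : ℝ) else 0)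
      (fun _ k => if k = none then (1 : ℝ) else 0)
    have e4 : ∑ j, c j ^ 2 = (∑ s : Fin n → Fin d, (∏ i, h (s i)) * (∏ i, h (s i))) *
        ∑ s : Fin n → Option (Σ i, Fin (dd i)), (∏ i, (if s i = none then (1 : ℝ) else 0)) *
          ∏ i, (if s i = none then (1 : ℝ) else 0) := by
      rw [Finset.sum_mul_sum, Fintype.sum_prod_type]
      refine Finset.sum_congr rfl fun s _ => Finset.sum_congr rfl fun t _ => ?_
      simp only [c]
      ring
    rw [e4, e2, e3, e1, e0]
    simp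
  have hB := clt_bessel U w c (fun u _ => by
      rw [hww]
      rw [Finset.prod_congr rfl fun i _ => huh1 (f u i)]
      have : ∀ i, ∑ k, g (u i) k * g (u i) k = 1 := fun i => by
        rw [← hg (u i)]; exact Finset.sum_congr rfl fun k _ => (sq _).symm
      rw [Finset.prod_congr rfl fun i _ => this i]
      simp) (fun u hu v hv hne => by
      rw [hww]
      by_cases hX : ∃ i, X.Adj (u i) (v i)
      · obtain ⟨i, hi⟩ := hadj u hu v hv hX
        rw [Finset.prod_eq_zero (f := fun i => ∑ k, uh (f u i) k * uh (f v i) k)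
          (Finset.mem_univ i) (huh0 _ _ hi), mul_zero]
      · have : ∃ i, u i ≠ v i := by
          by_contra hc
          push Not at hc
          exact hne (funext hc)
        obtain ⟨i, hi⟩ := this
        rw [Finset.prod_eq_zero (f := fun i => ∑ k, g (u i) k * g (v i) k)
          (Finset.mem_univ i) (horth _ _ hi fun h => hX ⟨i, h⟩), zero_mul])
  rw [hcc] at hB
  rcases U.eq_empty_or_nonempty with hU | hU
  · rw [hU]; simpa using hT
  obtain ⟨u0, hu0⟩ := hU
  have hTpos : 0 < T := lt_of_lt_of_le (Finset.prod_pos fun i _ => hθ _) (hprod u0 hu0)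
  have hterm : ∀ u ∈ U, (θa / Fintype.card V) ^ n / T ≤ (∑ j, c j * w u j) ^ 2 := by
    intro u hu
    rw [hcw u, mul_pow, ← Finset.prod_pow, ← Finset.prod_pow]
    have a1 : (θa / Fintype.card V) ^ n ≤ ∏ i, (∑ k, h k * g (u i) k) ^ 2 := by
      have ec : (θa / (Fintype.card V : ℝ)) ^ n = ∏ _i : Fin n, (θa / (Fintype.card V : ℝ)) := by
        rw [Finset.prod_const, Finset.card_univ, Fintype.card_fin]
      rw [ec]
      refine Finset.prod_le_prod (fun i _ => by positivity) fun i _ => ?_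
      have := hlow (u i)
      rw [Finset.sum_congr rfl fun k _ => mul_comm (g (u i) k) (h k)] at this
      exact this
    have a2 : 1 / T ≤ ∏ i, (1 / √(θ (f u i).1)) ^ 2 := by
      have : ∀ i, (1 / √(θ (f u i).1)) ^ 2 = (θ (f u i).1)⁻¹ := by
        intro i
        rw [div_pow, Real.sq_sqrt (hθ _).le, one_pow, one_div]
      rw [Finset.prod_congr rfl fun i _ => this i, Finset.prod_inv_distrib, one_div]
      exact inv_anti₀ (Finset.prod_pos fun i _ => hθ _) (hprod u hu)
    calc (θa / Fintype.card V) ^ n / T = (θa / Fintype.card V) ^ n * (1 / T) := by ring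
      _ ≤ _ := mul_le_mul a1 a2 (by positivity) (Finset.prod_nonneg fun i _ => sq_nonneg _)
  have hsum := Finset.sum_le_sum hterm
  rw [Finset.sum_const, nsmul_eq_mul] at hsum
  have := hsum.trans hB
  rw [mul_div_assoc', div_le_one hTpos] at this
  exact this

end Pool.Agent.Helper14.FO
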